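import Pool.Agent.H99.S6H.Core
import Pool.Agent.H41.S6H.Rc
import Pool.Agent.H6.S6H.Hin

/-!
# The plateau of `R - varpi`, typical lines not degenerate: zone, integer levels, frames, pieces

`Zoh`: the numbers `rot`, `th`, `rc`, `act` of the class are affine up to `e` in a zone of
half-width `L`, with room in all strict inequalities; `rc` is the number of the closed planes of
directions, with the same value and slope as `th - w`. `HLv`: the integer levels of the contexts.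
The frames are helper99's `HFr`. The normal forms may have no more digits than the directions
(`g - W g = v₀`): then the constant `H` is zero.
-/

set_option autoImplicit false

namespace Pool.S6C

open Finset Real
open Pool.Agent.H49.Ent Pool.Agent.H32.Dense Pool.STK Pool.KA Pool.KSAT Pool.K2S Pool.PB Pool.KS6
  Pool.Sel51 Pool.FALL Pool.S6H

/-- **The zone.** `wr = W g` is the window, `P - g` the base velocity, `L` the half-width, `e` the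
error, `G` the room, `pe` the straightness used in the definition of `rc`. -/
structure Zoh (σ : ℝ → Row) (act rc : ℚ → ℝ) (v₁ t : ℚ)
    (e₁ pe P g wr v₀ v a₀ α L e G : ℝ) : Prop where
  v0 : 0 < v
  α0 : 0 < α
  e0 : 0 < e
  eL : 100 * e ≤ L
  LG : (10 + 4 * v) * L ≤ G
  /-- the numbers are affine near the window -/
  aff : ∀ q : ℚ, |(q : ℝ) - wr| ≤ L → |(σ 1).rot q - v₀ - v * (q - wr)| ≤ e ∧
    |(σ 1).th q - g - (1 + v) * (q - wr)| ≤ e ∧ |rc q - (g - wr) - v * (q - wr)| ≤ e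
  act : ∀ q : ℚ, |(q : ℝ) - (P - g)| ≤ L → |act q - a₀ - α * (q - (P - g))| ≤ e
  /-- room -/
  g1 : (P - g) + v₀ + G < (σ 1).pi
  g2 : (P - g) + v₀ + G < 1
  g3 : P - wr + G < (σ 1).sN v₁ t
  g4 : P - wr + G < t - v₁ + e₁
  g5 : P - g + G < e₁
  g6 : wr + G < v₁
  g7 : P + G < 1
  g8 : G < P - g
  g9 : G < wr
  g10 : G < v₀
  g11 : v₀ ≤ g - wr
  gH : v₀ < g - wr → G < g - wr - v₀
  gp1 : (P - g) + v₀ + G < pe
  gp2 : pe + G < (σ 1).pi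

/-- **The integer levels.** The windows are `w₀ + i Δ`, the precisions of the directions `V₀ + i r`,
of the normal forms `V₀ + i r + H`; `X` is the block. `ul` is the window of the left label, which
gives the slope `s`, and `us` the window of the right label. -/
structure HLv (J N : ℕ) (g wr v₀ v L e : ℝ) (ul us : ℚ) (w₀ Δ r V₀ H X : ℕ) : Prop where
  zl : (wr - L / 2) * J ≤ w₀
  zu : ((w₀ + N * Δ : ℕ) : ℝ) ≤ (wr + L / 2) * J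
  ul0 : wr - L / 2 ≤ ul
  ul1 : (ul : ℝ) * J + e * J ≤ w₀
  us0 : ((w₀ + N * Δ : ℕ) : ℝ) + e * J ≤ us * J
  us1 : (us : ℝ) ≤ wr + L / 2
  XΔ : X ≤ Δ
  Xr : X ≤ r
  /-- the directions are known to more digits than at the left window -/
  vl : v₀ * J + v * (ul - wr) * J + 2 * e * J ≤ V₀
  /-- the directions are known at the windows, and not known to more digits -/
  vt : ∀ i ≤ N, ((V₀ + i * r : ℕ) : ℝ) ≤
    v₀ * J + v * (((w₀ + i * Δ : ℕ) : ℝ) - wr * J) - 20 * e * J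
  vt' : ∀ i ≤ N, v₀ * J + v * (((w₀ + i * Δ : ℕ) : ℝ) - wr * J) - 30 * e * J ≤
    ((V₀ + i * r : ℕ) : ℝ)
  /-- the normal forms are known at the windows, and not known to more digits -/
  rt : ∀ i ≤ N, ((V₀ + i * r + H : ℕ) : ℝ) ≤
    (g - wr) * J + v * (((w₀ + i * Δ : ℕ) : ℝ) - wr * J) - 20 * e * J
  rt' : ∀ i ≤ N, (g - wr) * J + v * (((w₀ + i * Δ : ℕ) : ℝ) - wr * J) - 50 * e * J ≤
    ((V₀ + i * r + H : ℕ) : ℝ)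
  /-- the slopes of the normal forms of all windows agree to `H` digits -/
  hs : H = 0 ∨ (H : ℝ) ≤ (g - wr - v₀) * J - 9 * e * J
  h0 : g - wr = v₀ → H = 0
  /-- the frame to `X` more digits is known at the right window -/
  rs1 : ((V₀ + N * r + X : ℕ) : ℝ) ≤ v₀ * J + v * (us - wr) * J - 20 * e * J
  rs2 : ((V₀ + N * r + H + X : ℕ) : ℝ) ≤ (g - wr) * J + v * (us - wr) * J - 20 * e * J

/-- The straightness of the fans. -/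
noncomputable def hPu (pe G : ℝ) (J : ℕ) : ℕ := ⌊(pe + G / 2) * J⌋₊

/-- The straightness in the direction of the normals. -/
noncomputable def hPN (P wr G : ℝ) (J : ℕ) : ℕ := ⌊(P - wr + G / 2) * J⌋₊

/-- **(LEV)** The integer levels exist. -/
def HLevStmt : Prop :=
  ∀ (N : ℕ) (v : ℝ), 0 < v → ∃ (Dn : ℕ) (C₀ : ℝ), 0 < Dn ∧ 1 ≤ C₀ ∧ (Dn : ℝ) ≤ C₀ ∧
    ∀ x e L g wr v₀ : ℝ, 0 < x → 0 < e → 1000 * (1 + v) * e ≤ x → C₀ * x ≤ L → L < wr →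
      (10 + 4 * v) * L < v₀ → v₀ ≤ g - wr → ∃ (ul us : ℚ) (J₁ : ℕ), |(ul : ℝ) - wr| ≤ C₀ * x ∧
      |(us : ℝ) - wr| ≤ C₀ * x ∧ ∀ J ≥ J₁, ∃ w₀ r V₀ H : ℕ, (r : ℝ) ≤ C₀ * ⌊x * J⌋₊ ∧
      HLv J N g wr v₀ v L e ul us w₀ (Dn * ⌊x * J⌋₊) r V₀ H ⌊x * J⌋₊

/-- **(A)** The frames exist, for all integer levels. -/
def HFrStmt : Prop :=
  ∀ (S : PCl 3) (a R h₁ : ℝ) (i₀ : Fin 3) (c s₂ : ℝ) (r' : ℝ → ℝ) (D : Set ℝ) (σ : ℝ → Row),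
    Cs S a R h₁ i₀ c s₂ r' D σ → ∀ (act : ℚ → ℝ) (K : Set ℝ) (W : ℝ → ℝ) (v₁ t : ℚ)
    (e₁ Q₀ P g v₀ v a₀ α : ℝ), Loc S i₀ c s₂ r' D σ act K W v₁ t e₁ Q₀ P g v₀ v v a₀ α →
    ∀ (rc : ℚ → ℝ) (pe L e G : ℝ), Zoh σ act rc v₁ t e₁ pe P g (W g) v₀ v a₀ α L e G →
    ∀ (N : ℕ) (ul us : ℚ),
    Clp S (fun J F A => ∀ (w₀ Δ r V₀ H X : ℕ), HLv J N g (W g) v₀ v L e ul us w₀ Δ r V₀ H X →
      ∃ (Va Rt : ℕ) (sg : Fin 3 → Fin 3) (a t : ℕ → F.Ω → ℝ) (s a' t' al nu kk bb : F.Ω → ℝ)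
        (zl zs : F.Ω → Pln), sg 0 = i₀ ∧
        Pool.S6HF.HFr F A sg N w₀ Δ r V₀ H X Va Rt (hPu pe G J) (hPN P (W g) G J) a t s a' t' al nu
          kk bb ∧
        FNr F A sg σ g (W g) v₀ v v e (10 * e) ul us Va Rt s a' t' zl zs)

/-- **(C)** The velocity is active in the contexts, on large events. -/
def HActStmt : Prop :=
  ∀ (S : PCl 3) (a R h₁ : ℝ) (i₀ : Fin 3) (c s₂ : ℝ) (r' : ℝ → ℝ) (D : Set ℝ) (σ : ℝ → Row),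
    Cs S a R h₁ i₀ c s₂ r' D σ → ∀ (act rc : ℚ → ℝ) (v₁ t : ℚ)
    (e₁ pe P g wr v₀ v a₀ α L e G : ℝ), ActN S i₀ act →
    (∀ q q' : ℚ, 0 ≤ q → q ≤ q' → q' ≤ 1 → act q ≤ act q') →
    (∀ q q' : ℚ, 0 ≤ q → q ≤ q' → q' ≤ 1 → act q' - act q ≤ q' - q) →
    Zoh σ act rc v₁ t e₁ pe P g wr v₀ v a₀ α L e G → ∀ (N : ℕ) (ul us : ℚ) (ca η ϖ x : ℝ),
    0 < ca → ca < α → 0 < η → η ≤ 1 → 0 < ϖ → 0 < x → x ≤ L / 4 →
    16 * e ≤ (α - ca) * η * x →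
    Clp S (fun J F A => ∀ (w₀ Δ r V₀ H X Va Rt : ℕ) (sg : Fin 3 → Fin 3)
      (a t : ℕ → F.Ω → ℝ) (s a' t' al nu kk bb : F.Ω → ℝ), sg 0 = i₀ →
      HLv J N g wr v₀ v L e ul us w₀ Δ r V₀ H X → X = ⌊x * J⌋₊ →
      Pool.S6HF.HFr F A sg N w₀ Δ r V₀ H X Va Rt (hPu pe G J) (hPN P wr G J) a t s a' t' al nu kk bb →
      ∀ i ≤ N, ∀ q : ℕ, |(q : ℝ) - (P - g) * J| ≤ L / 2 * J → ∀ j : ℕ,
      (j + 1) * ⌊η * X⌋₊ ≤ X → ∀ E : F.Ω → Prop,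
      ϖ ≤ Pe (Pool.Agent.H49.Ent.cond F.p A True) E →
      ca * ⌊η * X⌋₊ * Real.log 2 ≤
        CH (Pool.Agent.H49.Ent.cond (Pool.Agent.H49.Ent.cond F.p A True) E True)
        (Uni.dg ((j + 1) * ⌊η * X⌋₊)
          (Pool.S6N.om F sg q (fv V₀ r i) H X (a i) s (t i) 0))
        (fun ω => (Uni.dg (j * ⌊η * X⌋₊)
          (Pool.S6N.om F sg q (fv V₀ r i) H X (a i) s (t i) 0) ω,
          Pool.S6N.ctx F sg (fw w₀ Δ i) q (fv V₀ r i) H (a i) s (t i) ω)))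

/-- **(D)** The pairs of rows `(u, n)` are not full, on large events, in the static boxes, up to a
loss with a bounded sum along a progression of the base velocities. The constant `C₁` of the loss
does not depend on the half-width of the zone. -/
def HRowStmt : Prop :=
  ∀ (S : PCl 3) (a R h₁ : ℝ) (i₀ : Fin 3) (c s₂ : ℝ) (r' : ℝ → ℝ) (D : Set ℝ) (σ : ℝ → Row),
    Cs S a R h₁ i₀ c s₂ r' D σ → ∀ (act : ℚ → ℝ) (K : Set ℝ) (W : ℝ → ℝ) (v₁ t : ℚ)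
    (e₁ Q₀ P g v₀ v a₀ α : ℝ), Loc S i₀ c s₂ r' D σ act K W v₁ t e₁ Q₀ P g v₀ v v a₀ α →
    0 < v → ∀ (N : ℕ) (Cw κ ϖ δ : ℝ), 1 ≤ Cw → 0 < κ → κ ≤ 1 → 0 < ϖ → 0 < δ →
    ∃ C₁ : ℝ, 0 < C₁ ∧ ∀ C : ℝ, 0 < C → ∃ ε₀ x₁ : ℝ, 0 < ε₀ ∧ 0 < x₁ ∧
    ∀ (rc : ℚ → ℝ) (pe x L e G : ℝ), 0 < x → x ≤ x₁ → L ≤ C * x → 0 < e → e ≤ ε₀ * x →
    Zoh σ act rc v₁ t e₁ pe P g (W g) v₀ v a₀ α L e G → ∀ ul us : ℚ,
    |(ul : ℝ) - W g| ≤ Cw * x → |(us : ℝ) - W g| ≤ Cw * x →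
    Clp S (fun J F A => ∀ (w₀ Δ r V₀ H X Va Rt : ℕ) (sg : Fin 3 → Fin 3)
      (a t : ℕ → F.Ω → ℝ) (s a' t' al nu kk bb : F.Ω → ℝ) (zl zs : F.Ω → Pln), sg 0 = i₀ →
      HLv J N g (W g) v₀ v L e ul us w₀ Δ r V₀ H X → X = ⌊x * J⌋₊ → (Δ : ℝ) ≤ Cw * X →
      (r : ℝ) ≤ Cw * X →
      Pool.S6HF.HFr F A sg N w₀ Δ r V₀ H X Va Rt (hPu pe G J) (hPN P (W g) G J) a t s a' t' al nu kk
        bb →
      FNr F A sg σ g (W g) v₀ v v e (10 * e) ul us Va Rt s a' t' zl zs →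
      ∃ (X' : ℕ) (loss : ℕ → ℝ), 0 < X' ∧ (X' : ℝ) ≤ C₁ * X ∧ (∀ q, 0 ≤ loss q) ∧
      (∀ qb n : ℕ, |(qb : ℝ) - (P - g) * J| ≤ L / 2 * J →
        |((qb + n * X' : ℕ) : ℝ) - (P - g) * J| ≤ L / 2 * J →
        ∑ m ∈ range n, loss (qb + m * X') ≤ C₁ * X) ∧
      ∀ i ≤ N, ∀ q : ℕ, |(q : ℝ) - (P - g) * J| ≤ L / 2 * J → ∀ j : ℕ,
      (j + 1) * ⌊κ * X⌋₊ ≤ X → ∀ E : F.Ω → Prop,
      ϖ ≤ Pe (Pool.Agent.H49.Ent.cond F.p A True) E →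
      CH (Pool.Agent.H49.Ent.cond (Pool.Agent.H49.Ent.cond F.p A True) E True)
        (F.sbx sg (q + fw w₀ Δ i) (q + fv V₀ r i + fw w₀ Δ i + (j + 1) * ⌊κ * X⌋₊)
          (q + (fv V₀ r i + H) + fw w₀ Δ i + (j + 1) * ⌊κ * X⌋₊) a' s t')
        (fun ω => (F.sbx sg (q + fw w₀ Δ i) (q + fv V₀ r i + fw w₀ Δ i + j * ⌊κ * X⌋₊)
          (q + (fv V₀ r i + H) + fw w₀ Δ i + j * ⌊κ * X⌋₊) a' s t' ω, F.W ω)) ≤
        (2 - c) * ⌊κ * X⌋₊ * Real.log 2 + δ * X + loss q)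

/-- **(E)** On a typical line the slopes do not lie in a strip. -/
def HStrStmt : Prop :=
  ∀ (S : PCl 3) (a R h₁ : ℝ) (i₀ : Fin 3) (c s₂ : ℝ) (r' : ℝ → ℝ) (D : Set ℝ) (σ : ℝ → Row),
    Cs S a R h₁ i₀ c s₂ r' D σ → ∀ (act rc : ℚ → ℝ) (v₁ t : ℚ)
    (e₁ pe P g wr v₀ v a₀ α L e G : ℝ), RcN S i₀ pe rc →
    Zoh σ act rc v₁ t e₁ pe P g wr v₀ v a₀ α L e G → ∀ (N : ℕ) (ul us : ℚ) (x x₀ ε : ℝ),
    0 < x₀ → x₀ ≤ 1 → 1000 * e ≤ x₀ * x → x ≤ L / 4 → 0 < ε →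
    Clp S (fun J F A => ∀ (w₀ Δ r V₀ H X Va Rt : ℕ) (sg : Fin 3 → Fin 3)
      (a t : ℕ → F.Ω → ℝ) (s a' t' al nu kk bb : F.Ω → ℝ), sg 0 = i₀ →
      HLv J N g wr v₀ v L e ul us w₀ Δ r V₀ H X → X = ⌊x * J⌋₊ →
      Pool.S6HF.HFr F A sg N w₀ Δ r V₀ H X Va Rt (hPu pe G J) (hPN P wr G J) a t s a' t' al nu kk bb →
      ∀ i ≤ N, ∀ q : ℕ, NoStrip (Pool.Agent.H49.Ent.cond F.p A True)
        (LL F sg (fw w₀ Δ i) q (fv V₀ r i) H X (a i) s (t i))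
        (S2 (fv V₀ r i) H (a i) s (t i) a' s t') X x₀ ε)

/-- **(alpha)** The plateau of `R - varpi` with increasing `varpi`, if the closed planes of
directions are not thicker than the planks. -/
def HAlphaStmt : Prop :=
  ∀ (S : PCl 3) (a R h₁ : ℝ) (i₀ : Fin 3) (c s₂ : ℝ) (r' : ℝ → ℝ) (D : Set ℝ) (σ : ℝ → Row),
    Cs S a R h₁ i₀ c s₂ r' D σ → ∀ (act : ℚ → ℝ) (K : Set ℝ) (W : ℝ → ℝ) (v₁ t : ℚ)
    (e₁ Q₀ P g v₀ v a₀ α : ℝ), Loc S i₀ c s₂ r' D σ act K W v₁ t e₁ Q₀ P g v₀ v v a₀ α →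
    0 < v → ∀ (pe : ℝ) (rc : ℚ → ℝ), RcN S i₀ pe rc → (P - g) + v₀ < pe → pe < (σ 1).pi →
    Slp rc (W g) (g - W g) v → False

end Pool.S6C
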