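import Pool.Agent.H19.S6H.Frm

/-!
# The integer levels of the plateau of `R - varpi` exist
-/

set_option autoImplicit false

namespace Pool.S6C

open Finset Real
open Pool.Agent.H49.Ent Pool.Agent.H32.Dense Pool.STK Pool.KA Pool.KSAT Pool.K2S Pool.PB Pool.KS6
  Pool.Sel51

/-- **(LEV)** The integer levels exist. -/
theorem hlev : HLevStmt := by
  intro N v hv
  obtain ⟨Dn, hDn⟩ := exists_nat_ge (3 / v + 1)
  have hv3 : 0 < 3 / v := by positivity
  have hDn1 : (1 : ℝ) ≤ Dn := by linarith
  have hDn0 : 0 < Dn := by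
    have : (0 : ℝ) < Dn := by linarith
    exact_mod_cast this
  have hvD : 3 ≤ v * Dn := by
    have h1 : 3 / v * v = 3 := div_mul_cancel₀ _ hv.ne'
    nlinarith only [hv, h1, hDn]
  obtain ⟨C₁, hC₁⟩ : ∃ C₁ : ℝ, C₁ = N * Dn + 1 / v + 3 := ⟨_, rfl⟩
  have hiv : 0 < 1 / v := by positivity
  have hND : (0 : ℝ) ≤ N * Dn := by positivity
  obtain ⟨C₀, hC₀⟩ : ∃ C₀ : ℝ, C₀ = 4 * C₁ + v * Dn + Dn := ⟨_, rfl⟩
  have hC₁3 : 3 ≤ C₁ := by rw [hC₁]; linarith only [hiv, hND]
  have hvD0 : 0 ≤ v * Dn := by linarith only [hvD]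
  refine ⟨Dn, C₀, hDn0, by rw [hC₀]; linarith only [hDn, hv3, hvD, hC₁, hiv, hND], by rw [hC₀]; linarith only [hvD, hC₁, hiv, hND], ?_⟩
  intro x e L g wr v₀ hx he hxe hL hLw hLv hH
  have hex : 1000 * e ≤ x := by nlinarith only [hxe, hv, he]
  have hve : 1000 * (v * e) ≤ x := by nlinarith only [he, hxe]
  have hL4 : 4 * C₁ * x ≤ L := by
    have : 4 * C₁ * x ≤ C₀ * x := mul_le_mul_of_nonneg_right (by rw [hC₀]; linarith only [hDn, hv3, hvD]) hx.le
    linarith only [hL, this]
  have hL0 : 0 < L := by nlinarith only [hx, hL4, hC₁, hiv, he, hex, hND]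
  have hvL : v * L ≤ (10 + 4 * v) * L := by nlinarith only [hL0, hv]
  obtain ⟨ul, ul1, ul2⟩ := exists_rat_btwn
    (show wr - (1 / v + 2) * x < wr - (1 / v + 1) * x by nlinarith only [he, hex])
  obtain ⟨us, us1, us2⟩ := exists_rat_btwn
    (show wr + (N * Dn + 1 / v + 1) * x < wr + (N * Dn + 1 / v + 2) * x by nlinarith only [he, hex])
  have hC₀x : C₁ * x ≤ C₀ * x := mul_le_mul_of_nonneg_right (by rw [hC₀]; linarith only [hDn, hv3, hvD, hC₁, hiv, hND]) hx.le
  exact by
   have hNx : 0 ≤ (N * Dn : ℝ) * x := by positivity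
   have hvx : 1 / v * x * v = x := by field_simp
   have hivx : 0 < 1 / v * x := by positivity
   have ul2' : (ul : ℝ) < wr - x := by nlinarith only [ul2, hivx]
   have ul1' : wr - 1 / v * x - 2 * x < ul := by nlinarith only [ul1]
   have hC₁x : C₁ * x = N * Dn * x + 1 / v * x + 3 * x := by rw [hC₁]; ring
   obtain ⟨J₁, hJ₁⟩ := exists_nat_ge (((N : ℝ) + v + 10) / e + 2 / x)
   have hJe : ∀ J : ℕ, J₁ ≤ J → (N : ℝ) + v + 10 ≤ e * J ∧ 2 ≤ x * J := by
     intro J hJ
     have h1 : ((N : ℝ) + v + 10) / e + 2 / x ≤ J := hJ₁.trans (by exact_mod_cast hJ)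
     have h2 : 0 ≤ ((N : ℝ) + v + 10) / e := by positivity
     have h3 : 0 ≤ 2 / x := by positivity
     have h4 : ((N : ℝ) + v + 10) / e ≤ J := by linarith only [h1, h3]
     have h5 : 2 / x ≤ J := by linarith only [h1, h2]
     rw [div_le_iff₀ he] at h4
     rw [div_le_iff₀ hx] at h5
     constructor <;> linarith
   refine ⟨ul, us, J₁, ?_, ?_, ?_⟩
   · rw [abs_le]
     constructor <;> nlinarith
   · rw [abs_le]
     constructor <;> nlinarith
   intro J hJ
   obtain ⟨hJ1, hJ2⟩ := hJe J hJ
   obtain ⟨X, hX⟩ : ∃ X : ℕ, X = ⌊x * J⌋₊ := ⟨_, rfl⟩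
   rw [← hX]
   have hX1 : (X : ℝ) ≤ x * J := by rw [hX]; exact Nat.floor_le (by positivity)
   have hX2 : x * J < X + 1 := by rw [hX]; exact Nat.lt_floor_add_one _
   have hX3 : (1 : ℝ) ≤ X := by
     have : (1 : ℕ) ≤ ⌊x * J⌋₊ := Nat.le_floor (by push_cast; linarith only [hJ2])
     rw [hX]
     exact_mod_cast this
   exact by
    have hN0 : (0 : ℝ) ≤ N := Nat.cast_nonneg N
    have hJ0 : (0 : ℝ) ≤ J := Nat.cast_nonneg J
    have heJ : 10 ≤ e * J := by linarith only [hv, hJ1]
    -- the lowest window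
    obtain ⟨w₀, hw₀⟩ : ∃ w₀ : ℕ, w₀ = ⌊wr * J⌋₊ := ⟨_, rfl⟩
    have hwr : 0 < wr := hL0.trans hLw
    have hw1 : (w₀ : ℝ) ≤ wr * J := by rw [hw₀]; exact Nat.floor_le (by positivity)
    have hw2 : wr * J < w₀ + 1 := by rw [hw₀]; exact Nat.lt_floor_add_one _
    -- the step of the directions
    obtain ⟨r, hr⟩ : ∃ r : ℕ, r = ⌊v * ((Dn * X : ℕ) : ℝ)⌋₊ := ⟨_, rfl⟩
    have hr1 : (r : ℝ) ≤ v * ((Dn * X : ℕ) : ℝ) := by rw [hr]; exact Nat.floor_le (by positivity)
    have hr2 : v * ((Dn * X : ℕ) : ℝ) < r + 1 := by rw [hr]; exact Nat.lt_floor_add_one _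
    -- the directions
    obtain ⟨y₀, hy₀⟩ : ∃ y₀ : ℝ, y₀ = v₀ * J + v * (w₀ - wr * J) - 22 * e * J := ⟨_, rfl⟩
    have hy0 : 0 ≤ y₀ := by
      have h1 : v * (wr * J - w₀) ≤ v := by nlinarith only [hv, hw2]
      have h2 : v * L * J ≤ v₀ * J := mul_le_mul_of_nonneg_right (by linarith only [hLv, hvL]) hJ0
      have h3 : 10 * L * J ≤ v₀ * J := mul_le_mul_of_nonneg_right (by nlinarith only [hLv, hv, hL0]) hJ0
      have h4 : 4 * C₁ * x * J ≤ L * J := mul_le_mul_of_nonneg_right hL4 hJ0
      have h5 : 3 * (x * J) ≤ C₁ * (x * J) := mul_le_mul_of_nonneg_right hC₁3 (by positivity)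
      have h6 : 1000 * e * J ≤ x * J := mul_le_mul_of_nonneg_right hex hJ0
      rw [hy₀]
      nlinarith only [hv, hJ1, h1, h3, h4, h5, h6]
    obtain ⟨V₀, hV₀⟩ : ∃ V₀ : ℕ, V₀ = ⌊y₀⌋₊ := ⟨_, rfl⟩
    have hV1 : (V₀ : ℝ) ≤ y₀ := by rw [hV₀]; exact Nat.floor_le hy0
    have hV2 : y₀ < V₀ + 1 := by rw [hV₀]; exact Nat.lt_floor_add_one _
    -- the normal forms
    obtain ⟨H, hH0⟩ : ∃ H : ℕ, H = ⌊(g - wr - v₀) * J - 10 * e * J⌋₊ := ⟨_, rfl⟩
    have hH1 : H = 0 ∨ (H : ℝ) ≤ (g - wr - v₀) * J - 10 * e * J := by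
      rcases le_total 0 ((g - wr - v₀) * J - 10 * e * J) with h | h
      · right
        rw [hH0]
        exact Nat.floor_le h
      · left
        rw [hH0]
        exact Nat.floor_eq_zero.2 (by linarith only [h])
    exact by
     have hH2 : (g - wr - v₀) * J - 10 * e * J < H + 1 := by rw [hH0]; exact Nat.lt_floor_add_one _
     have hH3 : (H : ℝ) ≤ (g - wr - v₀) * J := by
       rcases hH1 with h | h
       · rw [h]
         push_cast
         exact mul_nonneg (by linarith only [hH]) hJ0
       · linarith only [hv, hJ1, h]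
     -- the windows and directions in real terms
     have eW : ∀ i : ℕ, ((w₀ + i * (Dn * X) : ℕ) : ℝ) = w₀ + i * ((Dn * X : ℕ) : ℝ) := by
       intro i
       push_cast
       ring
     have eV : ∀ i : ℕ, ((V₀ + i * r : ℕ) : ℝ) = V₀ + i * r := by
       intro i
       push_cast
       ring
     have up : ∀ i ≤ N, ((V₀ + i * r : ℕ) : ℝ) ≤
         v₀ * J + v * (((w₀ + i * (Dn * X) : ℕ) : ℝ) - wr * J) - 22 * e * J := by
       intro i _
       rw [eV, eW]
       have hi0 : (0 : ℝ) ≤ i := Nat.cast_nonneg i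
       have h1 : (i : ℝ) * r ≤ i * (v * ((Dn * X : ℕ) : ℝ)) := mul_le_mul_of_nonneg_left hr1 hi0
       have e1 : v * ((w₀ : ℝ) + i * ((Dn * X : ℕ) : ℝ) - wr * J) =
           v * (w₀ - wr * J) + i * (v * ((Dn * X : ℕ) : ℝ)) := by ring
       rw [e1]
       linarith only [hy₀, hV1, h1]
     have lo : ∀ i ≤ N, v₀ * J + v * (((w₀ + i * (Dn * X) : ℕ) : ℝ) - wr * J) - 23 * e * J ≤
         ((V₀ + i * r : ℕ) : ℝ) := by
       intro i hi
       rw [eV, eW]
       have hi0 : (0 : ℝ) ≤ i := Nat.cast_nonneg i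
       have hiN : (i : ℝ) ≤ N := by exact_mod_cast hi
       have h1 : (i : ℝ) * (v * ((Dn * X : ℕ) : ℝ)) ≤ i * (r + 1) :=
         mul_le_mul_of_nonneg_left hr2.le hi0
       have e1 : v * ((w₀ : ℝ) + i * ((Dn * X : ℕ) : ℝ) - wr * J) =
           v * (w₀ - wr * J) + i * (v * ((Dn * X : ℕ) : ℝ)) := by ring
       rw [e1]
       have h2 : (i : ℝ) * (r + 1) = i * r + i := by ring
       linarith only [hv, hJ1, hy₀, hV2, hiN, h1]
     exact by
      have hDX : ((Dn * X : ℕ) : ℝ) = Dn * X := by push_cast; ring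
      have hDXx : ((Dn * X : ℕ) : ℝ) ≤ Dn * (x * J) := by
        rw [hDX]
        exact mul_le_mul_of_nonneg_left hX1 (by linarith only [hDn, hv3])
      have hNDX : (N : ℝ) * ((Dn * X : ℕ) : ℝ) ≤ N * Dn * x * J := by
        have := mul_le_mul_of_nonneg_left hDXx hN0
        linarith only [this]
      have hvNDX : v * ((N : ℝ) * ((Dn * X : ℕ) : ℝ)) ≤ v * (N * Dn * x * J) :=
        mul_le_mul_of_nonneg_left hNDX hv.le
      have husJ : (wr + (N * Dn + 1 / v + 1) * x) * J ≤ us * J :=
        mul_le_mul_of_nonneg_right us1.le hJ0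
      have hivJ : 0 ≤ 1 / v * x * J := by positivity
      have hLJ : 4 * C₁ * x * J ≤ L * J := mul_le_mul_of_nonneg_right hL4 hJ0
      have hC₁J : C₁ * x * J = N * Dn * x * J + 1 / v * x * J + 3 * x * J := by rw [hC₁x]; ring
      have hexJ : 1000 * e * J ≤ x * J := mul_le_mul_of_nonneg_right hex hJ0
      have hNJ : 0 ≤ (N * Dn * x * J : ℝ) := by positivity
      -- the frame at the right window
      have rs : ((V₀ + N * r : ℕ) : ℝ) + X ≤ v₀ * J + v * (us - wr) * J - 20 * e * J := by
        have h1 := up N le_rfl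
        rw [eW] at h1
        have h2 : v * ((w₀ : ℝ) + N * ((Dn * X : ℕ) : ℝ) - wr * J) ≤ v * (N * Dn * x * J) := by
          have : v * ((w₀ : ℝ) + N * ((Dn * X : ℕ) : ℝ) - wr * J) =
            v * (w₀ - wr * J) + v * (N * ((Dn * X : ℕ) : ℝ)) := by ring
          rw [this]
          have h3 : v * ((w₀ : ℝ) - wr * J) ≤ 0 := mul_nonpos_of_nonneg_of_nonpos hv.le (by linarith only [hw1])
          linarith only [hvNDX, h3]
        have h4 : v * ((N * Dn + 1 / v + 1) * x) ≤ v * (us - wr) :=
          mul_le_mul_of_nonneg_left (by linarith only [us1]) hv.le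
        have h5 : v * ((N * Dn + 1 / v + 1) * x) = v * (N * Dn * x) + x + v * x := by
          field_simp
        have h6 := mul_le_mul_of_nonneg_right h4 hJ0
        rw [h5] at h6
        have h7 : (v * (N * Dn * x) + x + v * x) * J = v * (N * Dn * x * J) + x * J + v * x * J := by
          ring
        rw [h7] at h6
        have h8 : 0 ≤ v * x * J := by positivity
        linarith only [hv, hJ1, hX1, h1, h2, h6, h8]
      exact by
       refine ⟨w₀, r, V₀, H, ?_, ?_⟩
       · -- the size of `r`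
         have h1 : v * ((Dn * X : ℕ) : ℝ) = v * Dn * X := by rw [hDX]; ring
         rw [h1] at hr1
         refine hr1.trans (mul_le_mul_of_nonneg_right ?_ (by linarith only [hv, hJ1, hX2, hexJ]))
         rw [hC₀]
         linarith only [hDn, hv3, hC₁, hiv, hND]
       exact
         { zl := by nlinarith only [hv, hJ1, hw2, hivJ, hLJ, hC₁J, hexJ, hNJ]
           zu := by
             rw [eW]
             nlinarith only [hv, hJ1, hw1, hNDX, hivJ, hLJ, hC₁J, hexJ, hNJ]
           ul0 := by nlinarith only [he, hex, hL4, ul1, hNx, hivx, hC₁x]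
           ul1 := by
             have h1 : (ul : ℝ) * J ≤ (wr - x) * J := mul_le_mul_of_nonneg_right (by linarith only [ul2, hivx]) hJ0
             nlinarith only [hv, hJ1, hw2, hexJ, h1]
           us0 := by
             rw [eW]
             nlinarith only [hv, hJ1, hw1, hNDX, husJ, hivJ, hexJ]
           us1 := by nlinarith only [he, hex, hL4, us2, hNx, hivx, hC₁x]
           XΔ := by
             have : 1 * X ≤ Dn * X := Nat.mul_le_mul_right X hDn0
             omega
           Xr := by
             have h1 : (X : ℝ) ≤ r := by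
               have h2 : v * ((Dn * X : ℕ) : ℝ) = v * Dn * X := by rw [hDX]; ring
               rw [h2] at hr2
               have h3 : 3 * (X : ℝ) ≤ v * Dn * X := mul_le_mul_of_nonneg_right hvD (by linarith only [hv, hJ1, hX2, hexJ])
               linarith only [hv, hJ1, hX2, hr2, hexJ, h3]
             exact_mod_cast h1
           vl := by
             have h1 : (ul : ℝ) * J ≤ (wr - (1 / v + 1) * x) * J :=
               mul_le_mul_of_nonneg_right ul2.le hJ0
             have h2 : v * (ul * J) ≤ v * ((wr - (1 / v + 1) * x) * J) :=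
               mul_le_mul_of_nonneg_left h1 hv.le
             have h3 : v * ((wr - (1 / v + 1) * x) * J) = v * (wr * J) - x * J - v * x * J := by
               field_simp
               ring
             have h4 : 0 ≤ v * x * J := by positivity
             have h5 : v * (wr * J - w₀) ≤ v := by nlinarith only [hv, hw2]
             have h6 := hV2.le
             rw [hy₀] at h6
             nlinarith only [hv, hJ1, hy₀, hV2, hexJ, h2, h3, h4, h5]
           vt := fun i hi => by
             have := up i hi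
             linarith only [hv, hJ1, this]
           vt' := fun i hi => by
             have := lo i hi
             linarith only [hv, hJ1, this]
           rt := fun i hi => by
             have h1 := up i hi
             push_cast at h1 ⊢
             linarith only [hv, hJ1, hH3, h1]
           rt' := fun i hi => by
             have h1 := lo i hi
             push_cast at h1 ⊢
             linarith only [hv, hJ1, hH2, h1]
           hs := by
             rcases hH1 with h | h
             · exact Or.inl h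
             · exact Or.inr (by linarith only [hv, hJ1, h])
           h0 := fun h => by
             rw [hH0]
             refine Nat.floor_eq_zero.2 ?_
             rw [h, sub_self, zero_mul]
             linarith only [hv, hJ1]
           rs1 := by
             push_cast at rs ⊢
             linarith only [rs]
           rs2 := by
             push_cast at rs ⊢
             linarith only [hH3, rs] }

end Pool.S6C
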