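import Pool.Agent.H19.S6H.Frm
import Pool.Agent.H33.S6.Zof

/-!
# The zone for the plateau of `R - varpi`
-/

set_option autoImplicit false

namespace Pool.S6C

open Finset Real
open Pool.Agent.H49.Ent Pool.Agent.H32.Dense Pool.STK Pool.KA Pool.KSAT Pool.K2S Pool.PB Pool.KS6
  Pool.Sel51

section loc

variable {S : PCl 3} {a R h₁ : ℝ} {i₀ : Fin 3} {c s₂ : ℝ} {r : ℝ → ℝ} {D : Set ℝ} {σ : ℝ → Row}
  {act rc : ℚ → ℝ} {K : Set ℝ} {W : ℝ → ℝ} {v₁ t : ℚ} {e₁ Q₀ P g v₀ v ρ a₀ α pe : ℝ}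

/-- The planks are at least as thick as the trivial ones. -/
theorem Loc.v0_le_H (hC : Cs S a R h₁ i₀ c s₂ r D σ)
    (hL : Loc S i₀ c s₂ r D σ act K W v₁ t e₁ Q₀ P g v₀ v ρ a₀ α) : v₀ ≤ g - W g := by
  refine le_of_forall_pos_le_add fun ε hε => ?_
  have hW1 := hL.W1
  have hW0 := hL.w0
  have hg1 : g < 1 := (hL.pr g hL.thk).lt1
  have hR := hC.row 1 one_pos le_rfl hC.D1
  have hv := hL.v0
  have hρ := hL.ρ0
  obtain ⟨δ₁, hδ₁, h1⟩ := hL.rot 1 one_pos
  obtain ⟨δ₂, hδ₂, h2⟩ := hL.th 1 one_pos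
  obtain ⟨δ, hδ, hall⟩ := exists_room [δ₁, δ₂, 1 - W g, (1 - g) / (3 + ρ), ε / (4 + ρ)] (by
    intro x hx
    simp only [List.mem_cons, List.not_mem_nil, or_false] at hx
    rcases hx with h | h | h | h | h
    · rw [h]; exact hδ₁
    · rw [h]; exact hδ₂
    · rw [h]; linarith
    · rw [h]; exact div_pos (by linarith only [hg1]) (by linarith only [hW1, hW0, hρ])
    · rw [h]; exact div_pos hε (by linarith))
  simp only [List.mem_cons, List.not_mem_nil, or_false, forall_eq_or_imp, forall_eq] at hall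
  obtain ⟨b1, b2, b3, b4, b5⟩ := hall
  rw [lt_div_iff₀ (by linarith only [hW0, hρ, hδ, b3])] at b4 b5
  obtain ⟨q, q1, q2⟩ := exists_rat_btwn (show W g < W g + δ by linarith)
  obtain ⟨y, hy⟩ : ∃ y : ℝ, y = q - W g := ⟨_, rfl⟩
  have hy0 : 0 < y := by rw [hy]; linarith
  have hyδ : y < δ := by rw [hy]; linarith
  have ha : |(q : ℝ) - W g| = y := by rw [← hy]; exact abs_of_pos hy0
  have a1 := h1 q (by rw [ha]; linarith)
  have a2 := h2 q (by rw [ha]; linarith)
  rw [ha, ← hy, abs_le] at a1 a2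
  have q0 : (0 : ℝ) ≤ q := by linarith only [hW0, q1]
  have q3 : (q : ℝ) ≤ 1 := by linarith
  have a4 := trv hC le_rfl hR q (by exact_mod_cast q0) q3
  have e1 : (1 + ρ) * y + 1 * y < 1 - g := by nlinarith only [hy, hW1, b4, q1, q2, hW0, hρ]
  have a5 : (q : ℝ) + (σ 1).rot q ≤ (σ 1).th q := by
    rcases min_le_iff.1 a4 with h | h
    · exact h
    · linarith only [a2, e1, h, a2.2]
  have e2 : (4 + ρ) * y < ε := by nlinarith only [hy, hW1, b5, q2, hW0, hρ]
  have e3 : 0 ≤ v * y := by positivity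
  nlinarith only [q1, hy, a1, a2, a5, e2, e3, a1.1, a2.2]

/-- **The zone of the plateau of `R - varpi`.** -/
theorem zoh_of_loc (hC : Cs S a R h₁ i₀ c s₂ r D σ)
    (hL : Loc S i₀ c s₂ r D σ act K W v₁ t e₁ Q₀ P g v₀ v v a₀ α) (hv : 0 < v)
    (hpe : (P - g) + v₀ < pe) (hpi : pe < (σ 1).pi) (hrc : Slp rc (W g) (g - W g) v)
    {C ε : ℝ} (hC0 : 0 < C) (hε : 0 < ε) (hCε : 100 * ε ≤ C) : ∃ x₁ : ℝ, 0 < x₁ ∧
      ∀ x : ℝ, 0 < x → x ≤ x₁ → Zoh σ act rc v₁ t e₁ pe P g (W g) v₀ v a₀ α (C * x) (ε * x)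
        ((10 + 4 * v) * C * x) := by
  have hpi1 : (σ 1).pi ≤ 1 := num_le_cap hC.ne zero_le_one (hC.row 1 one_pos le_rfl hC.D1).pi
  have k1 := hL.gP
  have k2 := hL.gam
  have k3 := hL.vel
  have k4 := hL.small
  have k5 := hL.adm.ab g hL.thk
  have k6 := (hL.pr P hL.row).lt1
  have k7 := hL.w0
  have k8 := hL.v0_pos hC hv
  have k9 := hL.v0_le_H hC
  obtain ⟨δ₁, hδ₁, h1⟩ := hL.rot (ε / C) (by positivity)
  obtain ⟨δ₂, hδ₂, h2⟩ := hL.th (ε / C) (by positivity)
  obtain ⟨δ₃, hδ₃, h3⟩ := hL.aslp (ε / C) (by positivity)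
  obtain ⟨δ₄, hδ₄, h4⟩ := hrc (ε / C) (by positivity)
  obtain ⟨G₀, hG₀, hroom⟩ := exists_room [(σ 1).sN v₁ t - (P - W g), t - v₁ + e₁ - (P - W g),
    e₁ - (P - g), v₁ - W g, 1 - P, P - g, W g, v₀, (if v₀ < g - W g then g - W g - v₀ else 1),
    pe - ((P - g) + v₀), (σ 1).pi - pe] (by
    intro x hx
    simp only [List.mem_cons, List.not_mem_nil, or_false] at hx
    rcases hx with h | h | h | h | h | h | h | h | h | h | h
    · rw [h]; linarith
    · rw [h]; linarith only [k3]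
    · rw [h]; linarith only [k4]
    · rw [h]; linarith only [k5]
    · rw [h]; linarith only [k6]
    · rw [h]; linarith only [k1]
    · rw [h]; linarith
    · rw [h]; linarith only [k8]
    · rw [h]
      split_ifs with h'
      · linarith only [h']
      · exact one_pos
    · rw [h]; linarith
    · rw [h]; linarith)
  simp only [List.mem_cons, List.not_mem_nil, or_false, forall_eq_or_imp, forall_eq] at hroom
  obtain ⟨a1, a2, a3, a4, a5, a6, a7, a8, a9, a10, a11⟩ := hroom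
  obtain ⟨x₁, hx₁, hall⟩ := exists_room [δ₁ / C, δ₂ / C, δ₃ / C, δ₄ / C,
    G₀ / ((10 + 4 * v) * C)] (by
    intro x hx
    simp only [List.mem_cons, List.not_mem_nil, or_false] at hx
    rcases hx with h | h | h | h | h <;> · rw [h]; positivity)
  simp only [List.mem_cons, List.not_mem_nil, or_false, forall_eq_or_imp, forall_eq] at hall
  obtain ⟨b1, b2, b3, b4, b5⟩ := hall
  rw [lt_div_iff₀ hC0] at b1 b2 b3 b4
  rw [lt_div_iff₀ (by positivity)] at b5
  refine ⟨x₁, hx₁, fun x hx hxx => ?_⟩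
  have hCx : C * x ≤ x₁ * C := by nlinarith only [hC0, hxx]
  have hG : (10 + 4 * v) * C * x ≤ G₀ := by
    have : (10 + 4 * v) * C * x ≤ (10 + 4 * v) * C * x₁ :=
      mul_le_mul_of_nonneg_left hxx (by positivity)
    linarith only [b5, this]
  have hsc : ∀ y : ℝ, |y| ≤ C * x → ε / C * |y| ≤ ε * x := by
    intro y hy
    calc ε / C * |y| ≤ ε / C * (C * x) := mul_le_mul_of_nonneg_left hy (by positivity)
      _ = ε * x := by field_simp
  refine
    { v0 := hv
      α0 := hL.α0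
      e0 := by positivity
      eL := by nlinarith only [hCε, hx]
      LG := by nlinarith only
      aff := fun q hq => ⟨(h1 q (by linarith)).trans (hsc _ hq),
        (h2 q (by linarith)).trans (hsc _ hq), (h4 q (by linarith)).trans (hsc _ hq)⟩
      act := fun q hq => (h3 q (by linarith)).trans (hsc _ hq)
      g1 := by linarith
      g2 := by linarith only [k9, hG₀, a5, a7, hG]
      g3 := by linarith
      g4 := by linarith only [a2, hG]
      g5 := by linarith
      g6 := by linarith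
      g7 := by linarith
      g8 := by linarith
      g9 := by linarith
      g10 := by linarith
      g11 := k9
      gH := fun h => ?_
      gp1 := by linarith
      gp2 := by linarith }
  rw [if_pos h] at a9
  linarith only [a9, hG]

end loc

end Pool.S6C
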